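import Pool.Agent.T9h31.Ft.P2
import Pool.Agent.T9h24.Fu.Spec

/-!
# Piece (U1) of `T9h24.Fu` (helper31)

The bound for the values of a form in the saturation of a sum of products of powers of ideals.
-/

set_option autoImplicit false

open MvPolynomial Module

namespace Pool.Agent.T9h31.Fu

open Pool.Agent.T9h24.Ft Pool.Agent.T9h31.Ft Pool.Agent.T9h24.Fu

variable {F : Type} [NormedField F] [CharZero F] [IsAlgClosed F] {n : ℕ}

lemma good_mono {I : Ideal (MvPolynomial (Fin (n + 1)) (AlgebraicClosure ℚ))}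
    {φ ψ : (AlgebraicClosure ℚ →+* F) → (Fin (n + 1) → F) → ℝ} (hφ : ∀ j y, 0 ≤ φ j y)
    (hψ : ∀ j y, 0 ≤ ψ j y) (h : ∀ j y, φ j y ≤ ψ j y) : good I φ hφ ≤ good I ψ hψ := by
  rintro P ⟨A, hA0, hA⟩
  exact ⟨A, hA0, fun j y hy hI => (hA j y hy hI).trans (mul_le_mul_of_nonneg_left (h j y) hA0)⟩

theorem stBdU : StBdU := by
  intro n q T d a U I g hg P hP hPs F _ _ _
  classical
  -- bounds of the `g i t`
  have hB : ∀ i : Fin q, ∃ B : ℝ, 1 ≤ B ∧ ∀ (j : AlgebraicClosure ℚ →+* F) (y : Fin (n + 1) → F),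
      ‖y‖ ≤ 1 → ‖fun t => eval y (map j (g i t))‖ ≤ B := by
    intro i
    choose A hA0 hA using fun t => bd_all (F := F) (g i t)
    refine ⟨1 + ∑ t, A t, by linarith [Finset.sum_nonneg fun t (_ : t ∈ Finset.univ) => hA0 t],
      fun j y hy => ?_⟩
    refine (pi_norm_le_iff_of_nonneg
      (by linarith [Finset.sum_nonneg fun t (_ : t ∈ Finset.univ) => hA0 t])).2 fun t => ?_
    have h1 := Finset.single_le_sum (f := A) (fun t _ => hA0 t) (Finset.mem_univ t)
    linarith [hA t j y hy]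
  choose B hB1 hB using hB
  -- the bound of `P` at the points with `y l = 1`
  have hA : ∀ l : Fin (n + 1), ∃ A : ℝ, 0 ≤ A ∧
      ∀ (j : AlgebraicClosure ℚ →+* F) (y : Fin (n + 1) → F), ‖y‖ ≤ 1 → y l = 1 →
      (∀ Q ∈ I, eval y (map j Q) = 0) →
      ‖eval y (map j P)‖ ≤ A * ∑ e ∈ U, ∏ i, ‖fun t => eval y (map j (g i t))‖ ^ e i := by
    intro l
    obtain ⟨M, hM⟩ := hPs
    have hle : (⨆ e ∈ U, ∏ i, (Ideal.span (Set.range (g i))) ^ e i) ⊔ I ≤
        good (F := F) I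
          (fun j y => ∑ e ∈ U, ∏ i, ‖fun t => eval y (map j (g i t))‖ ^ e i)
          (fun j y => Finset.sum_nonneg fun e _ =>
            Finset.prod_nonneg fun i _ => pow_nonneg (norm_nonneg _) _) := by
      refine sup_le (iSup₂_le fun e he => ?_) (le_good _ _ _)
      refine (prod_good (F := F) Finset.univ
        (φ := fun i j y => ‖fun t => eval y (map j (g i t))‖ ^ e i)
        (fun i j y => pow_nonneg (norm_nonneg _) _)
        (fun i => pow_good _ (span_good I (g i)) (e i))).trans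
        (good_mono _ _ fun j y => ?_)
      exact Finset.single_le_sum
        (f := fun e : Fin q → ℕ => ∏ i, ‖fun t => eval y (map j (g i t))‖ ^ e i)
        (fun e _ => Finset.prod_nonneg fun i _ => pow_nonneg (norm_nonneg _) _) he
    obtain ⟨A, hA0, hA⟩ := hle (hM l)
    refine ⟨A, hA0, fun j y hy hyl hI => ?_⟩
    have h1 := hA j y hy hI
    rwa [map_mul, map_mul, map_pow, map_pow, map_X, eval_X, hyl, one_pow, one_mul] at h1
  choose A hA0 hA using hA
  have hB0 : ∀ i, 0 ≤ B i := fun i => zero_le_one.trans (hB1 i)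
  have hBp : ∀ e : Fin q → ℕ, 0 ≤ ∏ i, B i ^ e i := fun e =>
    Finset.prod_nonneg fun i _ => pow_nonneg (hB0 i) _
  have hBs : 0 ≤ ∑ e ∈ U, ∏ i, B i ^ e i := Finset.sum_nonneg fun e _ => hBp e
  refine ⟨1 + (∑ l, A l) * ∑ e ∈ U, ∏ i, B i ^ e i, ?_, ?_⟩
  · have : 0 ≤ (∑ l, A l) * ∑ e ∈ U, ∏ i, B i ^ e i :=
      mul_nonneg (Finset.sum_nonneg fun l _ => hA0 l) hBs
    linarith
  intro j y hy0 hI
  obtain ⟨l, hl⟩ := exists_coord y
  have hny : 0 < ‖y‖ := norm_pos_iff.2 hy0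
  have hyl : y l ≠ 0 := by
    rw [← norm_pos_iff, hl]; exact hny
  set c : F := (y l)⁻¹ with hc
  set z : Fin (n + 1) → F := c • y with hz
  have hyz : y = y l • z := by
    rw [hz, hc, smul_smul, mul_inv_cancel₀ hyl, one_smul]
  have hzn : ‖z‖ ≤ 1 := by
    rw [hz, norm_smul, hc, norm_inv, hl, inv_mul_cancel₀ hny.ne']
  have hzl : z l = 1 := by
    rw [hz, Pi.smul_apply, smul_eq_mul, hc, inv_mul_cancel₀ hyl]
  have hIz : ∀ Q ∈ I, eval z (map j Q) = 0 := fun Q hQ => hI c Q hQ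
  have hPy : ‖eval y (map j P)‖ = ‖y‖ ^ d * ‖eval z (map j P)‖ := by
    conv_lhs => rw [hyz]
    rw [eval_smul_hom hP, norm_mul, norm_pow, hl]
  have hgy : ∀ i, ‖fun t => eval y (map j (g i t))‖ =
      ‖y‖ ^ a i * ‖fun t => eval z (map j (g i t))‖ := by
    intro i
    have h1 : (fun t => eval y (map j (g i t))) =
        (y l) ^ a i • fun t => eval z (map j (g i t)) := by
      funext t
      conv_lhs => rw [hyz]
      rw [eval_smul_hom (hg i t), Pi.smul_apply, smul_eq_mul]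
    rw [h1, norm_smul, norm_pow, hl]
  -- one factor
  have hfac : ∀ i, ‖fun t => eval z (map j (g i t))‖ ≤
      B i * Real.exp (-max 0 (Real.log (‖y‖ ^ a i / ‖fun t => eval y (map j (g i t))‖))) := by
    intro i
    rw [hgy i]
    set r := ‖fun t => eval z (map j (g i t))‖ with hr
    have hr0 : 0 ≤ r := norm_nonneg _
    have hrB : r ≤ B i := hB i j z hzn
    have hya : 0 < ‖y‖ ^ a i := pow_pos hny _
    rcases hr0.eq_or_lt with h0 | h0
    · rw [← h0]
      exact mul_nonneg (zero_le_one.trans (hB1 i)) (Real.exp_nonneg _)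
    · rw [div_mul_eq_div_div, div_self hya.ne', one_div, Real.log_inv]
      rcases le_total (Real.log r) 0 with h2 | h2
      · rw [max_eq_right (by linarith), neg_neg, Real.exp_log h0]
        nlinarith [hB1 i]
      · rw [max_eq_left (by linarith), neg_zero, Real.exp_zero, mul_one]
        exact hrB
  have hprod : ∀ e : Fin q → ℕ, ∏ i, ‖fun t => eval z (map j (g i t))‖ ^ e i ≤
      (∏ i, B i ^ e i) * Real.exp (-∑ i, (e i : ℝ) *
      max 0 (Real.log (‖y‖ ^ a i / ‖fun t => eval y (map j (g i t))‖))) := by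
    intro e
    rw [← Finset.sum_neg_distrib, Real.exp_sum, ← Finset.prod_mul_distrib]
    refine Finset.prod_le_prod (fun i _ => pow_nonneg (norm_nonneg _) _) fun i _ => ?_
    refine (pow_le_pow_left₀ (norm_nonneg _) (hfac i) (e i)).trans (le_of_eq ?_)
    rw [mul_pow, ← Real.exp_nat_mul]
    congr 2
    ring
  have hP1 := hA l j z hzn hzl hIz
  have hAl : A l ≤ ∑ l, A l := Finset.single_le_sum (f := A) (fun l _ => hA0 l) (Finset.mem_univ l)
  rw [hPy]
  set E : (Fin q → ℕ) → ℝ := fun e => Real.exp (-∑ i, (e i : ℝ) *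
      max 0 (Real.log (‖y‖ ^ a i / ‖fun t => eval y (map j (g i t))‖))) with hE
  have hE0 : ∀ e, 0 ≤ E e := fun e => Real.exp_nonneg _
  have hES : 0 ≤ ∑ e ∈ U, E e := Finset.sum_nonneg fun e _ => hE0 e
  have hsum : ∑ e ∈ U, ∏ i, ‖fun t => eval z (map j (g i t))‖ ^ e i ≤
      (∑ e ∈ U, ∏ i, B i ^ e i) * ∑ e ∈ U, E e := by
    rw [Finset.mul_sum]
    refine Finset.sum_le_sum fun e he => (hprod e).trans ?_
    exact mul_le_mul_of_nonneg_right (Finset.single_le_sum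
      (f := fun e : Fin q → ℕ => ∏ i, B i ^ e i) (fun e _ => hBp e) he) (hE0 e)
  have h3 : ‖eval z (map j P)‖ ≤
      (∑ l, A l) * ((∑ e ∈ U, ∏ i, B i ^ e i) * ∑ e ∈ U, E e) :=
    hP1.trans (mul_le_mul hAl hsum
      (Finset.sum_nonneg fun e _ => Finset.prod_nonneg fun i _ => pow_nonneg (norm_nonneg _) _)
      (Finset.sum_nonneg fun l _ => hA0 l))
  have hd : 0 ≤ ‖y‖ ^ d := by positivity
  calc ‖y‖ ^ d * ‖eval z (map j P)‖
      ≤ ‖y‖ ^ d * ((∑ l, A l) * ((∑ e ∈ U, ∏ i, B i ^ e i) * ∑ e ∈ U, E e)) :=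
        mul_le_mul_of_nonneg_left h3 hd
    _ ≤ (1 + (∑ l, A l) * ∑ e ∈ U, ∏ i, B i ^ e i) * ‖y‖ ^ d * ∑ e ∈ U, E e := by
        have : 0 ≤ ‖y‖ ^ d * ∑ e ∈ U, E e := mul_nonneg hd hES
        nlinarith

end Pool.Agent.T9h31.Fu
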